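import Pool.Agent.H36.EAdd

open Pool.Agent.H38.NP Pool.Agent.H36.EAdd

theorem Pool.Agent.Results.MP_6f953e_lc.Hard.result :
    NPHardOn
      (fun p : ℕ × List (ℕ × ℕ) × List (List ℕ) × ℕ =>
        (∀ e, wOf p.1 p.2.2.1 e ∈ ({1, 10, 20} : Set ℝ)) ∧
          ∃ F, IsStabilizer (graphOf p.1 p.2.1) (wOf p.1 p.2.2.1) F)
      (fun p => ∃ F, IsStabilizer (graphOf p.1 p.2.1) (wOf p.1 p.2.2.1) F ∧ F.card ≤ p.2.2.2) :=
  hard.npHardOn
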